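import Pool.Agent.H22.LG.BN

set_option autoImplicit false

open H22.LG
open scoped Pointwise

namespace Pool.Agent.H93.LG

variable {G : Type} [Group G] (D : BN G)

theorem self_mem (n : G) : n ∈ D.C n := ⟨1, D.B.one_mem, 1, D.B.one_mem, by simp⟩

theorem C_mul {n x b c : G} (hx : x ∈ D.C n) (hb : b ∈ D.B) (hc : c ∈ D.B) : b * x * c ∈ D.C n := by
  obtain ⟨b', hb', c', hc', rfl⟩ := hx
  exact ⟨b * b', D.B.mul_mem hb hb', c' * c, D.B.mul_mem hc' hc, by group⟩

theorem C_sub {m n : G} (h : m ∈ D.C n) : D.C m ⊆ D.C n := by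
  rintro x ⟨b, hb, c, hc, rfl⟩
  exact C_mul D h hb hc

theorem C_symm {m n : G} (h : m ∈ D.C n) : n ∈ D.C m := by
  obtain ⟨b, hb, c, hc, rfl⟩ := h
  exact ⟨b⁻¹, D.B.inv_mem hb, c⁻¹, D.B.inv_mem hc, by group⟩

theorem C_eq {m n : G} (h : m ∈ D.C n) : D.C m = D.C n :=
  (C_sub D h).antisymm (C_sub D (C_symm D h))

theorem CC_sub {m n k : G} (h : k ∈ D.C m * D.C n) : D.C k ⊆ D.C m * D.C n := by
  obtain ⟨x, hx, y, hy, rfl⟩ := h
  rintro z ⟨b, hb, c, hc, rfl⟩
  refine ⟨b * x * 1, C_mul D hx hb D.B.one_mem, 1 * y * c, C_mul D hy D.B.one_mem hc, ?_⟩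
  simp only
  group

theorem CC_mem {m n x : G} (h : x ∈ D.C m * D.C n) :
    ∃ b ∈ D.B, x ∈ D.C (m * b * n) := by
  obtain ⟨y, ⟨b₁, h1, c₁, h2, rfl⟩, z, ⟨b₂, h3, c₂, h4, rfl⟩, rfl⟩ := h
  exact ⟨c₁ * b₂, D.B.mul_mem h2 h3, b₁, h1, c₂, h4, by group⟩

theorem CC_mk {m n b : G} (hb : b ∈ D.B) : m * b * n ∈ D.C m * D.C n :=
  ⟨m * b, ⟨1, D.B.one_mem, b, hb, by simp⟩, n, self_mem D n, by simp⟩

theorem CC_eq {m n : G} (h : ∀ b ∈ D.B, m * b * n ∈ D.C (m * n)) :
    D.C m * D.C n = D.C (m * n) := by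
  apply Set.Subset.antisymm
  · intro x hx
    obtain ⟨b, hb, hx'⟩ := CC_mem D hx
    exact C_sub D (h b hb) hx'
  · apply CC_sub
    have := CC_mk D (m := m) (n := n) D.B.one_mem
    simpa using this

theorem CsCs {s : G} (hs : s ∈ D.S) : s ∈ D.C s * D.C s ∧ (1 : G) ∈ D.C s * D.C s := by
  constructor
  · obtain ⟨b, hb, hsb⟩ := D.thick s hs
    obtain ⟨m, hm, b₁, h1, b₂, h2, he⟩ := D.mul s hs s (D.sN s hs) b hb
    rcases hm with hm | hm
    · rw [hm] at he
      have h3 : s * b * s ∈ D.C s * D.C s := CC_mk D hb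
      have h4 : s * b * s ∈ D.C s := ⟨b₁, h1, b₂, h2, he⟩
      exact CC_sub D h3 (C_symm D h4)
    · exfalso
      apply hsb
      rw [he, Set.mem_singleton_iff.mp hm]
      exact D.B.mul_mem (D.B.mul_mem h1 (D.ss s hs)) h2
  · have h1 := CC_mk D (m := s) (n := s) (D.B.inv_mem (D.ss s hs))
    have h2 : s * (s * s)⁻¹ * s = 1 := by group
    rwa [h2] at h1

theorem one_mul_sub {X Y : Set G} (h : (1 : G) ∈ X) : Y ⊆ X * Y := fun y hy =>
  ⟨1, h, y, hy, one_mul y⟩

theorem main (len : S_LEN) (unq : S_UNQ) (ext : S_EXT) : ∀ (k : ℕ) (d : G), d ∈ D.N →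
    d * d ∈ D.B → D.len d ≤ k → d ∈ D.C d * D.C d := by
  intro k
  induction k with
  | zero =>
    intro d hd _ hk
    have h0 : d ∈ D.B := ((len G D d hd).2.2.2.2.2).mp (by omega)
    exact ⟨d, self_mem D d, 1, ⟨d⁻¹, D.B.inv_mem h0, 1, D.B.one_mem, by simp⟩, by simp⟩
  | succ k ih =>
    intro d hd hdd hk
    by_cases hB : d ∈ D.B
    · exact ⟨d, self_mem D d, 1, ⟨d⁻¹, D.B.inv_mem hB, 1, D.B.one_mem, by simp⟩, by simp⟩
    obtain ⟨s, hs, hlt⟩ := (len G D d hd).2.2.2.1 hB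
    have hsN := D.sN s hs
    have hss := D.ss s hs
    have hssN : s * s ∈ D.N := D.N.mul_mem hsN hsN
    obtain ⟨e, he⟩ : ∃ e, e = s⁻¹ * d := ⟨_, rfl⟩
    have heN : e ∈ D.N := by rw [he]; exact D.N.mul_mem (D.N.inv_mem hsN) hd
    have hse : s * e = d := by rw [he]; group
    have hle : D.len e < D.len d := by
      rw [he, ((len G D d hd).2.2.1 s hs).2.2.1]; exact hlt
    obtain ⟨cs1, cs2⟩ := CsCs D hs
    have hCs : D.C s ⊆ D.C s * D.C s := CC_sub D cs1
    have h1 : D.C s * D.C e = D.C d := by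
      rw [← hse]
      exact CC_eq D fun b hb => (ext G D e heN s hs).1 (by rw [hse]; omega) b hb
    rcases lt_or_ge (D.len (e * s)) (D.len e) with hA | hA
    · -- case A
      have hfN : e * s ∈ D.N := D.N.mul_mem heN hsN
      have hff : (e * s) * (e * s) ∈ D.B := by
        have h2 := D.nor s⁻¹ (D.N.inv_mem hsN) (d * d) hdd (D.N.mul_mem hd hd)
        have h3 : (e * s) * (e * s) = s⁻¹ * (d * d) * s⁻¹⁻¹ := by rw [he]; group
        rw [h3]; exact h2
      have hf := ih (e * s) hfN hff (by omega)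
      have hff2 : D.C (e * s) ⊆ D.C (e * s) * D.C (e * s) := CC_sub D hf
      have e1 : e * s * s = e * (s * s) := by group
      have h2 : D.C (e * s) * D.C s = D.C e := by
        have h3 : D.C (e * s) * D.C s = D.C (e * s * s) :=
          CC_eq D fun b hb => (ext G D (e * s) hfN s hs).2 (by
            rw [e1, ((len G D e heN).1 (s * s) hss hssN).1]; omega) b hb
        rw [h3, e1]
        exact C_eq D ⟨1, D.B.one_mem, s * s, hss, by simp⟩
      have h4 : D.C d = D.C s * (D.C (e * s) * D.C s) := by rw [h2, h1]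
      have h5 : D.C d ⊆ D.C d * D.C d := by
        calc D.C d = D.C s * (D.C (e * s) * D.C s) := h4
          _ ⊆ D.C s * ((D.C (e * s) * D.C (e * s)) * D.C s) :=
            Set.mul_subset_mul_left (Set.mul_subset_mul_right hff2)
          _ ⊆ D.C s * ((D.C (e * s) * ((D.C s * D.C s) * D.C (e * s))) * D.C s) :=
            Set.mul_subset_mul_left (Set.mul_subset_mul_right (Set.mul_subset_mul_left
              (one_mul_sub cs2)))
          _ = (D.C s * (D.C (e * s) * D.C s)) * (D.C s * (D.C (e * s) * D.C s)) := by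
            simp only [mul_assoc]
          _ = D.C d * D.C d := by rw [← h4]
      exact h5 (self_mem D d)
    · -- case B
      have h2 : D.C e * D.C s = D.C (e * s) :=
        CC_eq D fun b hb => (ext G D e heN s hs).2 hA b hb
      have hdsN : d * s ∈ D.N := D.N.mul_mem hd hsN
      have hlds : D.len (d * s) < D.len d := by
        have h3 := (len G D (d * s) hdsN).2.1
        have h4 : (d * s)⁻¹ = (s⁻¹ * d) * (d * d)⁻¹ := by group
        have h5 : s⁻¹ * d ∈ D.N := D.N.mul_mem (D.N.inv_mem hsN) hd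
        rw [h4, ((len G D _ h5).1 (d * d)⁻¹ (D.B.inv_mem hdd)
          (D.N.inv_mem (D.N.mul_mem hd hd))).1, ← he] at h3
        omega
      have e1 : d * s * s = d * (s * s) := by group
      have h3 : D.C (d * s) * D.C s = D.C d := by
        have h4 : D.C (d * s) * D.C s = D.C (d * s * s) :=
          CC_eq D fun b hb => (ext G D (d * s) hdsN s hs).2 (by
            rw [e1, ((len G D d hd).1 (s * s) hss hssN).1]; omega) b hb
        rw [h4, e1]
        exact C_eq D ⟨1, D.B.one_mem, s * s, hss, by simp⟩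
      have h4 : D.C d ⊆ D.C s * D.C (e * s) := by
        calc D.C d = D.C (d * s) * D.C s := h3.symm
          _ ⊆ D.C (d * s) * (D.C s * D.C s) := Set.mul_subset_mul_left hCs
          _ = (D.C (d * s) * D.C s) * D.C s := by rw [mul_assoc]
          _ = (D.C s * D.C e) * D.C s := by rw [h3, h1]
          _ = D.C s * D.C (e * s) := by rw [mul_assoc, h2]
      have hesN : e * s ∈ D.N := D.N.mul_mem heN hsN
      obtain ⟨b, hb, hdb⟩ := CC_mem D (h4 (self_mem D d))
      obtain ⟨m, hm, b₁, hb1, b₂, hb2, heq⟩ := D.mul s hs (e * s) hesN b hb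
      have h5 : d ∈ D.C m := C_sub D ⟨b₁, hb1, b₂, hb2, heq⟩ hdb
      have h6 : d ∈ D.C (e * s) := by
        rcases hm with hm | hm
        · rwa [hm] at h5
        · exfalso
          have h7 : s * (e * s) = d * s := by rw [← hse]; group
          rw [Set.mem_singleton_iff.mp hm, h7] at h5
          have h8 := unq G D (d * s) hdsN d hd h5
          have h9 : (d * s)⁻¹ * d = s⁻¹ := by group
          rw [h9] at h8
          exact D.sB s hs (by simpa using D.B.inv_mem h8)
      have h7 : D.C d = D.C e * D.C s := by rw [h2]; exact C_eq D h6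
      have ht := unq G D (e * s) hesN d hd h6
      obtain ⟨t, htd⟩ : ∃ t, t = (e * s)⁻¹ * d := ⟨_, rfl⟩
      rw [← htd] at ht
      have htN : t ∈ D.N := by rw [htd]; exact D.N.mul_mem (D.N.inv_mem hesN) hd
      have hee : e * e ∈ D.B := by
        have k1 := D.nor e heN t⁻¹ (D.B.inv_mem ht) (D.N.inv_mem htN)
        have k2 : e * e = (e * t⁻¹ * e⁻¹)⁻¹ * ((s * s)⁻¹ * (d * d)) := by
          have k3 : e * t⁻¹ * e = (s * s)⁻¹ * (d * d) := by
            rw [htd]
            have : d = s * e := hse.symm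
            subst this
            group
          rw [← k3]
          group
        rw [k2]
        exact D.B.mul_mem (D.B.inv_mem k1) (D.B.mul_mem (D.B.inv_mem hss) hdd)
      have hE := ih e heN hee (by omega)
      have hE2 : D.C e ⊆ D.C e * D.C e := CC_sub D hE
      have h8 : D.C d ⊆ D.C d * D.C d := by
        calc D.C d = D.C s * D.C e := h1.symm
          _ ⊆ D.C s * (D.C e * D.C e) := Set.mul_subset_mul_left hE2
          _ = (D.C e * D.C s) * D.C e := by rw [← mul_assoc, h1, h7]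
          _ ⊆ (D.C e * (D.C s * D.C s)) * D.C e :=
            Set.mul_subset_mul_right (Set.mul_subset_mul_left hCs)
          _ = (D.C e * D.C s) * (D.C s * D.C e) := by simp only [mul_assoc]
          _ = D.C d * D.C d := by rw [h1, ← h7]
      exact h8 (self_mem D d)

theorem t_INO (len : S_LEN) (unq : S_UNQ) (ext : S_EXT) : S_INO := by
  intro G _ D d hd hdd
  obtain ⟨x, ⟨b₁, h1, b₂, h2, rfl⟩, y, ⟨b₃, h3, b₄, h4, rfl⟩, h⟩ :=
    main D len unq ext (D.len d) d hd hdd le_rfl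
  refine ⟨b₂ * b₃, D.B.mul_mem h2 h3, b₁⁻¹, D.B.inv_mem h1, b₄⁻¹, D.B.inv_mem h4, ?_⟩
  have h5 : b₁ * d * b₂ * (b₃ * d * b₄) = d := h
  calc d * (b₂ * b₃) * d = b₁⁻¹ * (b₁ * d * b₂ * (b₃ * d * b₄)) * b₄⁻¹ := by group
    _ = b₁⁻¹ * d * b₄⁻¹ := by rw [h5]

end Pool.Agent.H93.LG
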